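import Pool.Agent.H33.PtcDefs

namespace Pool.Agent.Results.MP_76760e_an.Q2

open Matrix Pool.Agent.H33.Ptc Filter Topology InnerProductSpace
open scoped ComplexOrder MatrixOrder ComplexConjugate

def p : Fin 3 → ℤ × ℤ := ![(0, 0), (1, 0), (0, 1)]

def Good (G : Fin 3 → Fin 3 → ℂ) : Prop :=
  ∃ b : ℤ × ℤ → ℂ, (∀ K : Finset (ℤ × ℤ), (Matrix.of fun i j : K => b (i.1 - j.1)).PosSemidef) ∧
    ∀ i j, b (p i - p j) = G i j

lemma Good.comb {G H : Fin 3 → Fin 3 → ℂ} (hG : Good G) (hH : Good H) (s t : ℝ) (hs : 0 ≤ s)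
    (ht : 0 ≤ t) : Good (fun i j => s * G i j + t * H i j) := by
  obtain ⟨b, h1, h2⟩ := hG
  obtain ⟨c, h3, h4⟩ := hH
  refine ⟨fun l => s * b l + t * c l, fun K => ?_, fun i j => by simp only [h2, h4]⟩
  have hs' : (0 : ℂ) ≤ s := by exact_mod_cast hs
  have ht' : (0 : ℂ) ≤ t := by exact_mod_cast ht
  exact ((h1 K).smul hs').add ((h3 K).smul ht')

def g {n : ℕ} (u : Fin 3 → Fin n → ℂ) (i j : Fin 3) : ℂ := ∑ k, conj (u i k) * u j k

def P (n : ℕ) : Prop := ∀ u : Fin 3 → Fin n → ℂ, (∀ i, g u i i = g u 0 0) → Good (g u)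

lemma good_zero : Good (fun _ _ => 0) := ⟨0, fun K => PosSemidef.zero, fun _ _ => rfl⟩

lemma P1 : P 1 := by
  intro u hu
  simp only [g, Fin.sum_univ_one] at hu
  have hn : ∀ i, ‖u i 0‖ = ‖u 0 0‖ := by
    intro i
    have := congrArg norm (hu i)
    simp only [norm_mul, Complex.norm_conj] at this
    exact (mul_self_inj (norm_nonneg _) (norm_nonneg _)).mp this
  by_cases h0 : u 0 0 = 0
  · have : g u = fun _ _ => 0 := by
      ext i j
      have := hn j
      rw [h0, norm_zero, norm_eq_zero] at this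
      simp [g, this]
    rw [this]
    exact good_zero
  let z : Fin 3 → ℂ := fun i => u i 0 / u 0 0
  have hz : ∀ i, conj (z i) = (z i)⁻¹ := by
    intro i
    refine (Complex.inv_eq_conj ?_).symm
    simp [z, hn i, h0]
  have hz0 : ∀ i, z i ≠ 0 := by
    intro i
    refine div_ne_zero (fun h => h0 ?_) h0
    have := hn i
    rw [h, norm_zero] at this
    exact norm_eq_zero.mp this.symm
  let χ : ℤ × ℤ → ℂ := fun l => z 1 ^ l.1 * z 2 ^ l.2
  have hχ : ∀ l m, conj (u 0 0 * χ l) * (u 0 0 * χ m) = conj (u 0 0) * u 0 0 * χ (-(l - m)) := by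
    intro l m
    simp only [χ, map_mul, map_zpow₀, hz, neg_sub, Prod.fst_sub, Prod.snd_sub,
      zpow_sub₀ (hz0 _), _root_.inv_zpow]
    field_simp
  refine ⟨fun l => conj (u 0 0) * u 0 0 * χ (-l), fun K => ?_, fun i j => ?_⟩
  · have := posSemidef_vecMulVec_star_self (fun i : K => u 0 0 * χ i.1)
    convert this using 1
    ext i j
    exact (hχ i.1 j.1).symm
  · have hp : ∀ i, u 0 0 * χ (p i) = u i 0 := by
      intro i
      fin_cases i <;> simp [χ, p, z] <;> field_simp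
    simp only [← hχ, hp, g, Fin.sum_univ_one]

lemma weighted {n : ℕ} (hP : P n) (v : Fin 3 → Fin (n + 1) → ℂ) (w : Fin (n + 1) → ℝ)
    (hw : ∀ k, 0 ≤ w k) (k0 : Fin (n + 1)) (h0 : w k0 = 0) (G : Fin 3 → Fin 3 → ℂ)
    (hG : ∀ i j, G i j = ∑ k, w k * (conj (v i k) * v j k)) (hd : ∀ i, G i i = G 0 0) :
    Good G := by
  have e : G = g (fun i k => (√(w (k0.succAbove k)) : ℝ) * v i (k0.succAbove k)) := by
    ext i j
    rw [hG, Fin.sum_univ_succAbove _ k0, h0]
    simp only [Complex.ofReal_zero, zero_mul, zero_add, g, map_mul, Complex.conj_ofReal]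
    refine Finset.sum_congr rfl fun k _ => ?_
    have : ((√(w (k0.succAbove k)) : ℝ) : ℂ) * (√(w (k0.succAbove k)) : ℝ) = w (k0.succAbove k) := by
      rw [← Complex.ofReal_mul, Real.mul_self_sqrt (hw _)]
    rw [← this]
    ring
  rw [e] at hd ⊢
  exact hP _ hd

lemma one_side {n : ℕ} (hP : P n) (v : Fin 3 → Fin (n + 1) → ℂ) (hv : ∀ i, g v i i = g v 0 0)
    (d : Fin (n + 1) → ℝ) (hd : ∀ i, ∑ k, (d k : ℂ) * (conj (v i k) * v i k) = 0)
    (hpos : ∃ k, 0 < d k) : ∃ M : ℝ, 0 < M ∧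
      Good (fun i j => g v i j - (M : ℂ)⁻¹ * ∑ k, d k * (conj (v i k) * v j k)) := by
  obtain ⟨k0, hk0⟩ := Finite.exists_max d
  obtain ⟨k1, hk1⟩ := hpos
  have hM : 0 < d k0 := hk1.trans_le (hk0 k1)
  refine ⟨d k0, hM, weighted hP v (fun k => 1 - d k / d k0)
    (fun k => by rw [sub_nonneg, div_le_one hM]; exact hk0 k) k0 (by simp [hM.ne']) _
    (fun i j => ?_) (fun i => by simp only [hd, hv])⟩
  simp only [g, Finset.mul_sum, ← Finset.sum_sub_distrib]
  refine Finset.sum_congr rfl fun k _ => ?_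
  push_cast
  ring

lemma two_side {n : ℕ} (hP : P n) (v : Fin 3 → Fin (n + 1) → ℂ) (hv : ∀ i, g v i i = g v 0 0)
    (d : Fin (n + 1) → ℝ) (hd : ∀ i, ∑ k, (d k : ℂ) * (conj (v i k) * v i k) = 0)
    (hpos : ∃ k, 0 < d k) : Good (g v) := by
  obtain ⟨M, hM, h1⟩ := one_side hP v hv d hd hpos
  by_cases hneg : ∃ k, 0 < (-d) k
  · obtain ⟨M', hM', h2⟩ := one_side hP v hv (-d) (fun i => by simp [hd]) hneg
    have := h1.comb h2 (M / (M + M')) (M' / (M + M')) (by positivity) (by positivity)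
    convert this using 1
    ext i j
    have a1 : (M : ℂ) ≠ 0 := by exact_mod_cast hM.ne'
    have a2 : (M' : ℂ) ≠ 0 := by exact_mod_cast hM'.ne'
    have a3 : (M : ℂ) + M' ≠ 0 := by exact_mod_cast (add_pos hM hM').ne'
    simp only [Pi.neg_apply, Complex.ofReal_neg, neg_mul, Finset.sum_neg_distrib]
    push_cast
    field_simp
    ring
  · push Not at hneg
    have hz : ∀ i k, (d k : ℂ) * v i k = 0 := by
      intro i k
      have h3 : ∑ k, d k * ‖v i k‖ ^ 2 = 0 := by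
        have := hd i
        simp only [Complex.conj_mul'] at this
        exact_mod_cast this
      have h4 := (Finset.sum_eq_zero_iff_of_nonneg fun k _ => mul_nonneg
        (by simpa using hneg k) (sq_nonneg _)).mp h3 k (Finset.mem_univ _)
      simpa using h4
    convert h1 using 1
    ext i j
    rw [Finset.sum_eq_zero fun k _ => by rw [mul_left_comm, hz, mul_zero]]
    simp

lemma step {n : ℕ} (hP : P (n + 1)) : P (n + 2) := by
  intro u hu
  let E := EuclideanSpace ℂ (Fin (n + 2))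
  let U : Fin 3 → E := fun i => WithLp.toLp 2 (u i)
  have hU : ∀ i j, ⟪U i, U j⟫_ℂ = g u i j := by
    intro i j
    simp [U, E, g, PiLp.inner_apply, mul_comm]
  let e0 : E := EuclideanSpace.single 0 1
  let e1 : E := EuclideanSpace.single 1 1
  let φ : (Fin 4 → ℝ) →ₗ[ℝ] (Fin 3 → ℝ) := Matrix.mulVecLin (Matrix.of fun i => ![‖u i 0‖ ^ 2,
    ‖u i 1‖ ^ 2, 2 * (conj (u i 0) * u i 1).re, -2 * (conj (u i 0) * u i 1).im])
  obtain ⟨x, hx, hx0⟩ := (Submodule.ne_bot_iff _).mp (φ.ker_ne_bot_of_finrank_lt (by simp))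
  let c : ℂ := x 2 + x 3 * Complex.I
  let T : E →L[ℂ] E := (x 0 : ℂ) • rankOne ℂ e0 e0 + (x 1 : ℂ) • rankOne ℂ e1 e1 +
    c • rankOne ℂ e0 e1 + conj c • rankOne ℂ e1 e0
  have hT : ∀ y z : E, ⟪y, T z⟫_ℂ = x 0 * (conj (y 0) * z 0) + x 1 * (conj (y 1) * z 1) +
      c * (conj (y 0) * z 1) + conj c * (conj (y 1) * z 0) := by
    intro y z
    simp [T, e0, e1, E, inner_add_right, inner_smul_right, EuclideanSpace.inner_single_left,
      EuclideanSpace.inner_single_right]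
    ring
  have hs : (T : E →ₗ[ℂ] E).IsSymmetric := by
    intro y z
    rw [← inner_conj_symm]
    simp only [ContinuousLinearMap.coe_coe, hT, map_add, map_mul, Complex.conj_ofReal,
      Complex.conj_conj]
    ring
  have hn : Module.finrank ℂ E = n + 2 := by simp [E]
  let b := hs.eigenvectorBasis hn
  let d := hs.eigenvalues hn
  have hdiag : ∀ y z : E, ⟪y, T z⟫_ℂ = ∑ k, d k * (conj ⟪b k, y⟫_ℂ * ⟪b k, z⟫_ℂ) := by
    intro y z
    rw [← b.sum_inner_mul_inner]
    refine Finset.sum_congr rfl fun k _ => ?_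
    have h1 := hs (b k) z
    have h2 := hs.apply_eigenvectorBasis hn k
    simp only [ContinuousLinearMap.coe_coe] at h1 h2
    rw [← h1, h2, inner_smul_left, inner_conj_symm]
    simp only [RCLike.conj_ofReal]
    change _ * ((d k : ℂ) * _) = _
    ring
  let v : Fin 3 → Fin (n + 2) → ℂ := fun i k => ⟪b k, U i⟫_ℂ
  have hg : g v = g u := by
    ext i j
    rw [← hU, ← b.sum_inner_mul_inner]
    exact Finset.sum_congr rfl fun k _ => by rw [← inner_conj_symm (U i)]
  have hd : ∀ i, ∑ k, (d k : ℂ) * (conj (v i k) * v i k) = 0 := by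
    intro i
    rw [← hdiag, hT]
    have h1 := congrFun (LinearMap.mem_ker.mp hx) i
    simp only [φ, mulVecLin_apply, mulVec, dotProduct, Fin.sum_univ_four, of_apply,
      cons_val_zero, cons_val_one, cons_val, Pi.zero_apply] at h1
    simp only [← Complex.normSq_eq_norm_sq, Complex.normSq_apply] at h1
    apply Complex.ext
    · simp [U, c] at h1 ⊢
      linarith
    · simp [U, c]
      ring
  rw [← hg] at hu ⊢
  by_cases hpos : ∃ k, 0 < d k
  · exact two_side hP v hu d hd hpos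
  by_cases hneg : ∃ k, 0 < (-d) k
  · exact two_side hP v hu (-d) (fun i => by simp [hd]) hneg
  exfalso
  push Not at hpos hneg
  have hd0 : ∀ k, d k = 0 := fun k => le_antisymm (hpos k) (by simpa using hneg k)
  have hz : ∀ y z : E, ⟪y, T z⟫_ℂ = 0 := fun y z => by simp [hdiag, hd0]
  have a0 := hz e0 e0
  have a1 := hz e1 e1
  have a2 := hz e0 e1
  rw [hT] at a0 a1 a2
  simp [e0, e1, E, c, Complex.ext_iff] at a0 a1 a2
  apply hx0
  ext k
  fin_cases k <;> simp [a0, a1, a2.1, a2.2]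

lemma P_all (n : ℕ) : P (n + 1) := by
  induction n with
  | zero => exact P1
  | succ n ih => exact step ih

def Lam : Finset (ℤ × ℤ) := {(0, 0), (1, 0), (0, 1)}

lemma p_mem (i : Fin 3) : p i ∈ Lam := by fin_cases i <;> simp [p, Lam]

lemma mem_Lam {l : ℤ × ℤ} (h : l ∈ Lam) : ∃ i, l = p i := by
  simp only [Lam, Finset.mem_insert, Finset.mem_singleton] at h
  rcases h with rfl | rfl | rfl
  exacts [⟨0, rfl⟩, ⟨1, rfl⟩, ⟨2, rfl⟩]

lemma scalar : ExtProp ℂ Lam := by
  rintro a ⟨N, hN⟩ K _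
  let σ : Fin 3 ≃ Lam := (Fintype.equivFinOfCardEq (by decide)).symm
  have hg : ∀ i j, g (fun i k => N (σ k) ⟨p i, p_mem i⟩) i j = a (p i - p j) := by
    intro i j
    have := congrFun (congrFun hN ⟨p i, p_mem i⟩) ⟨p j, p_mem j⟩
    rw [of_apply, mul_apply, ← σ.sum_comp] at this
    rw [this]
    rfl
  obtain ⟨b, h1, h2⟩ := P_all 2 (fun i k => N (σ k) ⟨p i, p_mem i⟩) (fun i => by simp [hg])
  refine ⟨b, fun i hi j hj => ?_, ?_⟩
  · obtain ⟨i, rfl⟩ := mem_Lam hi
    obtain ⟨j, rfl⟩ := mem_Lam hj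
    rw [h2, hg]
  · exact CStarAlgebra.nonneg_iff_eq_star_mul_self.mp (h1 K).nonneg

lemma th : Tendsto (fun n : ℕ => (1 : ℝ) / ((n : ℝ) + 1)) atTop (𝓝 0) :=
  tendsto_one_div_add_atTop_nhds_zero_nat

noncomputable def Cn (n : ℕ) : ℂ := (Real.cos (1 / ((n : ℝ) + 1)) : ℝ)
noncomputable def Kn (n : ℕ) : ℂ :=
  (Real.sin (1 / ((n : ℝ) + 1)) : ℝ) * (if Even n then Complex.I else 1)

noncomputable def Cf : C(OnePoint ℕ, ℂ) := OnePoint.continuousMapMkNat Cn 1 (by
  have := (Complex.continuous_ofReal.tendsto _).comp ((Real.continuous_cos.tendsto 0).comp th)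
  rw [Real.cos_zero] at this
  exact this)

lemma norm_Kn (n : ℕ) : ‖Kn n‖ = |Real.sin (1 / ((n : ℝ) + 1))| := by
  unfold Kn
  rw [norm_mul, Complex.norm_real]
  split_ifs <;> simp

noncomputable def Kf : C(OnePoint ℕ, ℂ) := OnePoint.continuousMapMkNat Kn 0 (by
  rw [tendsto_zero_iff_norm_tendsto_zero]
  have := ((Real.continuous_sin.tendsto 0).comp th).abs
  simpa [norm_Kn] using this)

lemma CK (n : ℕ) : Cn n * Cn n + conj (Kn n) * Kn n = 1 := by
  rw [Complex.conj_mul', norm_Kn, ← Complex.ofReal_pow, sq_abs, Cn, ← Complex.ofReal_mul,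
    ← Complex.ofReal_add, ← sq, Real.cos_sq_add_sin_sq, Complex.ofReal_one]

lemma star_Cf : star Cf = Cf := by
  ext x
  induction x using OnePoint.rec with
  | infty => change star (1 : ℂ) = 1; simp
  | coe n => exact Complex.conj_ofReal _

lemma CKf : Cf * Cf + star Kf * Kf = 1 := by
  ext x
  induction x using OnePoint.rec with
  | infty => change (1 : ℂ) * 1 + star 0 * 0 = 1; simp
  | coe n => exact CK n

noncomputable def dat (l : ℤ × ℤ) : C(OnePoint ℕ, ℂ) :=
  if l = 0 then 1 else if l = (1, 0) ∨ l = (-1, 0) then Cf else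
    if l = (1, -1) then star Kf else if l = (-1, 1) then Kf else 0

noncomputable def vec (k i : ℤ × ℤ) : C(OnePoint ℕ, ℂ) :=
  if k = (0, 0) then (if i = (0, 0) then 1 else if i = (1, 0) then Cf else 0)
  else if k = (1, 0) then (if i = (0, 0) then 0 else if i = (1, 0) then Kf else 1) else 0

lemma dat_pos : MPos (Matrix.of fun i j : Lam => dat (i.1 - j.1)) := by
  refine ⟨Matrix.of fun k i => vec k.1 i.1, ?_⟩
  ext1 i j
  rw [mul_apply]
  simp only [of_apply, conjTranspose_apply]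
  rw [Finset.sum_coe_sort Lam (fun k => star (vec k i.1) * vec k j.1)]
  obtain ⟨i', hi⟩ := mem_Lam i.2
  obtain ⟨j', hj⟩ := mem_Lam j.2
  rw [hi, hj, Lam, Finset.sum_insert (by decide), Finset.sum_pair (by decide)]
  fin_cases i' <;> fin_cases j' <;> simp [p, dat, vec, star_Cf, CKf]

lemma span2 {E : Type*} [NormedAddCommGroup E] [InnerProductSpace ℂ E] (x y z : E) (c k : ℂ)
    (hx : ⟪x, x⟫_ℂ = 1) (hy : ⟪y, y⟫_ℂ = 1) (hz : ⟪z, z⟫_ℂ = 1) (h1 : ⟪y, z⟫_ℂ = 0)
    (h2 : ⟪y, x⟫_ℂ = c) (h3 : ⟪z, x⟫_ℂ = k) (h : conj c * c + conj k * k = 1) :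
    x = c • y + k • z := by
  rw [← sub_eq_zero, ← inner_self_eq_zero (𝕜 := ℂ)]
  have h1' : ⟪z, y⟫_ℂ = 0 := by rw [← inner_conj_symm, h1, map_zero]
  have h2' : ⟪x, y⟫_ℂ = conj c := by rw [← inner_conj_symm, h2]
  have h3' : ⟪x, z⟫_ℂ = conj k := by rw [← inner_conj_symm, h3]
  simp only [inner_sub_left, inner_sub_right, inner_add_left, inner_add_right, inner_smul_left,
    inner_smul_right, hx, hy, hz, h1, h2, h3, h1', h2', h3']
  linear_combination (-1 : ℂ) * h

lemma gram_eval {ι X : Type} [Fintype ι] [TopologicalSpace X] (M : Matrix ι ι C(X, ℂ))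
    (h : MPos M) (x : X) : ∃ E : ι → EuclideanSpace ℂ ι, ∀ i j, ⟪E i, E j⟫_ℂ = M i j x := by
  obtain ⟨N, rfl⟩ := h
  refine ⟨fun i => WithLp.toLp 2 (fun k => N k i x), fun i j => ?_⟩
  simp [PiLp.inner_apply, mul_apply, mul_comm]

lemma fail : ¬ ExtProp C(OnePoint ℕ, ℂ) Lam := by
  intro h
  obtain ⟨b, hb, hN⟩ := h dat dat_pos {(0, 0), (1, 0), (0, 1), (1, 1), (0, 2)} (by decide)
  have b0 : b 0 = 1 := by simpa [dat] using hb _ (p_mem 0) _ (p_mem 0)
  have b1 : b (-1, 0) = Cf := by simpa [dat, p] using hb _ (p_mem 0) _ (p_mem 1)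
  have b1' : b (1, 0) = Cf := by simpa [dat, p] using hb _ (p_mem 1) _ (p_mem 0)
  have b2 : b (0, -1) = 0 := by simpa [dat, p] using hb _ (p_mem 0) _ (p_mem 2)
  have b2' : b (0, 1) = 0 := by simpa [dat, p] using hb _ (p_mem 2) _ (p_mem 0)
  have b3 : b (1, -1) = star Kf := by simpa [dat, p] using hb _ (p_mem 1) _ (p_mem 2)
  have b3' : b (-1, 1) = Kf := by simpa [dat, p] using hb _ (p_mem 2) _ (p_mem 1)
  have key : ∀ n : ℕ, b (0, -2) n = if Even n then 1 else -1 := by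
    intro n
    obtain ⟨E', hE'⟩ := gram_eval _ hN (n : OnePoint ℕ)
    let E := fun (q : ℤ × ℤ) (hq : q ∈ ({(0, 0), (1, 0), (0, 1), (1, 1), (0, 2)} : Finset (ℤ × ℤ))) =>
      E' ⟨q, hq⟩
    have hE : ∀ q hq r hr, ⟪E q hq, E r hr⟫_ℂ = b (q - r) n := fun q hq r hr => hE' _ _
    have hC : conj (Cn n) = Cn n := Complex.conj_ofReal _
    have hC' : Cf n = Cn n := rfl
    have hK' : Kf n = Kn n := rfl
    have r1 := span2 (E (1, 0) (by decide)) (E (0, 0) (by decide)) (E (0, 1) (by decide))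
      (Cn n) (Kn n) (by rw [hE, sub_self, b0]; rfl) (by rw [hE, sub_self, b0]; rfl)
      (by rw [hE, sub_self, b0]; rfl) (by rw [hE]; exact DFunLike.congr_fun b2 _)
      (by rw [hE]; exact DFunLike.congr_fun b1 _) (by rw [hE]; exact DFunLike.congr_fun b3' _) (by rw [hC]; exact CK n)
    have r2 := span2 (E (1, 1) (by decide)) (E (0, 1) (by decide)) (E (0, 2) (by decide))
      (Cn n) (Kn n) (by rw [hE, sub_self, b0]; rfl) (by rw [hE, sub_self, b0]; rfl)
      (by rw [hE, sub_self, b0]; rfl) (by rw [hE]; exact DFunLike.congr_fun b2 _)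
      (by rw [hE]; exact DFunLike.congr_fun b1 _) (by rw [hE]; exact DFunLike.congr_fun b3' _) (by rw [hC]; exact CK n)
    have r3 := span2 (E (0, 1) (by decide)) (E (1, 1) (by decide)) (E (1, 0) (by decide))
      (Cn n) (conj (Kn n)) (by rw [hE, sub_self, b0]; rfl)
      (by rw [hE, sub_self, b0]; rfl)
      (by rw [hE, sub_self, b0]; rfl) (by rw [hE]; exact DFunLike.congr_fun b2' _)
      (by rw [hE]; exact DFunLike.congr_fun b1' _) (by rw [hE]; exact DFunLike.congr_fun b3 _)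
      (by rw [hC, Complex.conj_conj, mul_comm (Kn n)]; exact CK n)
    rw [r1, r2] at r3
    have r4 := congrArg (fun y => ⟪E (0, 0) (by decide), y⟫_ℂ) r3
    simp only [inner_add_right, inner_smul_right] at r4
    rw [hE, hE, hE] at r4
    have q0 : b ((0, 0) - (0, 0)) n = 1 := by rw [sub_self, b0]; rfl
    have q1 : b ((0, 0) - (0, 1)) n = 0 := DFunLike.congr_fun b2 _
    have q2 : b ((0, 0) - (0, 2)) n = b (0, -2) n := rfl
    rw [q0, q1, q2] at r4
    have hθ0 : (0 : ℝ) < 1 / ((n : ℝ) + 1) := by positivity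
    have hθ1 : 1 / ((n : ℝ) + 1) ≤ 1 := by
      rw [div_le_one (by positivity)]; linarith [n.cast_nonneg (α := ℝ)]
    have hc : Cn n ≠ 0 := Complex.ofReal_ne_zero.mpr
      (Real.cos_pos_of_le_one (by rwa [abs_of_pos hθ0])).ne'
    have hs : ((Real.sin (1 / ((n : ℝ) + 1)) : ℝ) : ℂ) ≠ 0 := Complex.ofReal_ne_zero.mpr
      (Real.sin_pos_of_pos_of_le_one hθ0 hθ1).ne'
    have r5 : Kn n * b (0, -2) n + conj (Kn n) = 0 := by
      apply mul_left_cancel₀ hc
      linear_combination -r4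
    unfold Kn at r5
    simp only [map_mul, Complex.conj_ofReal] at r5
    split_ifs at r5 ⊢
    · rw [Complex.conj_I] at r5
      apply mul_left_cancel₀ (mul_ne_zero hs Complex.I_ne_zero)
      linear_combination r5
    · rw [map_one] at r5
      apply mul_left_cancel₀ hs
      linear_combination r5
  have ht : Tendsto (fun n : ℕ => b (0, -2) n) atTop (𝓝 (b (0, -2) OnePoint.infty)) :=
    (OnePoint.continuous_iff_from_nat _).mp (b (0, -2)).continuous
  have t1 := ht.comp (tendsto_id.const_mul_atTop' (show 0 < 2 by norm_num))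
  have t2 := ht.comp ((tendsto_add_atTop_nat 1).comp
    (tendsto_id.const_mul_atTop' (show 0 < 2 by norm_num)))
  simp only [Function.comp_def, key, id] at t1 t2
  simp only [even_two, Even.mul_right, if_true] at t1
  simp only [Nat.not_even_two_mul_add_one, if_false] at t2
  have := (tendsto_const_nhds_iff.mp t1).trans (tendsto_const_nhds_iff.mp t2).symm
  norm_num at this

theorem result : ∃ Λ : Finset (ℤ × ℤ), ExtProp ℂ Λ ∧ ¬ ExtProp C(OnePoint ℕ, ℂ) Λ :=
  ⟨Lam, scalar, fail⟩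

end Pool.Agent.Results.MP_76760e_an.Q2
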